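import Mathlib
import Pool.Agent.U11.Irr4
import Pool.Agent.U11.Fam
import Pool.Agent.U11.Dens

set_option autoImplicit false

/-!
# Curves with a point of multiplicity one or two through 11 and 15 points

The cases `t = 1` and `t = 2` of the question, for equal multiplicities `m` at `n = 11` or `n = 15` general
points of the complex projective plane (one open set of configurations for all degrees):

* for all `m` outside a set of density zero and every `d` with the inequality of the question for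
  `t = 1` or `t = 2` there are no curves at all;
* for EVERY `m ≥ 1` and every such `d` there are no curves or there is exactly one; for `n = 11` this
  curve is irreducible (in particular reduced) and has multiplicity exactly `m` at each of the points;
* for multiplicities `m` and `m + 1` at 11 points and every `d` there are no curves or exactly one.
-/

namespace Pool.Agent.Results.MP_b1ca72_ag.ElevenFifteenPoints

open MvPolynomial Filter Topology

/-- the homogeneous ideal of the point `(p 0 : p 1 : 1)` -/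
noncomputable def point (p : Fin 2 → ℂ) : Ideal (MvPolynomial (Fin 3) ℂ) :=
  Ideal.span ({X 0 - C (p 0) * X 2, X 1 - C (p 1) * X 2} : Set (MvPolynomial (Fin 3) ℂ))

/-- Forms of degree `d` vanishing to order at least `w i` at the points `(P i 0 : P i 1 : 1)`: the curves
of the class `d H - ∑ w i E i`. -/
noncomputable def forms {n : ℕ} (P : Fin n → Fin 2 → ℂ) (d : ℕ) (w : Fin n → ℕ) :
    Submodule ℂ (MvPolynomial (Fin 3) ℂ) :=
  homogeneousSubmodule (Fin 3) ℂ d ⊓
    Submodule.restrictScalars ℂ (⨅ i : Fin n, point (P i) ^ (w i))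

/-- the inequality of the question -/
def Ineq {n : ℕ} (d t : ℕ) (w : Fin n → ℕ) : Prop :=
  ((d + 2).choose 2 : ℤ) - ∑ i, ((w i + 1).choose 2 : ℤ) ≤ max (((t + 1).choose 2 : ℤ) - 2) 0

/-- For general points there are no curves at all, in every degree with the inequality for `t = 1` or
for `t = 2`. -/
def NoCurves (n m : ℕ) : Prop :=
  ∃ F : MvPolynomial (Fin n × Fin 2) ℂ, F ≠ 0 ∧
    ∀ P : Fin n → Fin 2 → ℂ, eval (fun ij : Fin n × Fin 2 => P ij.1 ij.2) F ≠ 0 →
      ∀ t d : ℕ, t = 1 ∨ t = 2 → Ineq d t (fun _ : Fin n => m) → forms P d (fun _ => m) = ⊥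

/-- the dimension is the expected one in every degree -/
def AllDegrees (n m : ℕ) : Prop :=
  ∃ F : MvPolynomial (Fin n × Fin 2) ℂ, F ≠ 0 ∧
    ∀ P : Fin n → Fin 2 → ℂ, eval (fun ij : Fin n × Fin 2 => P ij.1 ij.2) F ≠ 0 →
      ∀ d : ℕ, Module.finrank ℂ ↥(forms P d (fun _ => m)) =
        (d + 2).choose 2 - n * (m + 1).choose 2

theorem two_choose (k : ℕ) : 2 * (k + 1).choose 2 = (k + 1) * k := by
  have h := Nat.add_one_mul_choose_eq k 1
  rw [Nat.choose_one_right] at h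
  rw [h]
  ring

theorem bot_of {n : ℕ} {P : Fin n → Fin 2 → ℂ} {d : ℕ} {w : Fin n → ℕ}
    (h : Module.finrank ℂ ↥(forms P d w) = 0) : forms P d w = ⊥ := by
  have h3 : Module.Finite ℂ ↥(homogeneousSubmodule (Fin 3) ℂ d) :=
    Module.Finite.iff_fg.2 (homogeneousSubmodule_fg _ _ d)
  have h4 : Module.Finite ℂ ↥(forms P d w) :=
    Submodule.finiteDimensional_of_le (inf_le_left : forms P d w ≤ _)
  exact Submodule.finrank_eq_zero.1 h

theorem ineq_unif {n d t m : ℕ} (ht : t = 1 ∨ t = 2) (h : Ineq d t (fun _ : Fin n => m)) :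
    (d + 2).choose 2 ≤ n * (m + 1).choose 2 ∨
      (t = 2 ∧ (d + 2).choose 2 = n * (m + 1).choose 2 + 1) := by
  unfold Ineq at h
  rw [Finset.sum_const, Finset.card_univ, Fintype.card_fin, nsmul_eq_mul] at h
  have e : ((n : ℤ) * ((m + 1).choose 2 : ℤ)) = ((n * (m + 1).choose 2 : ℕ) : ℤ) := by push_cast; rfl
  rw [e] at h
  rcases ht with rfl | rfl
  · left
    have h2 : ((1 + 1).choose 2 : ℤ) = 1 := by norm_num
    rw [h2] at h
    norm_num at h
    omega
  · have h2 : ((2 + 1).choose 2 : ℤ) = 3 := by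
      norm_num [Nat.choose]
    rw [h2] at h
    norm_num at h
    omega

theorem exists_degree {n : ℕ} (hn : n = 11 ∨ n = 15) {ε : ℝ} (hε : 0 < ε) :
    ∃ m₀ : ℕ, ∀ m : ℕ, m₀ ≤ m → ¬ AllDegrees n m → ∃ d : ℕ, 3 ∣ d ∧
      (√(n : ℝ) - 3) / 2 - ε ≤ (d : ℝ) - √(n : ℝ) * m ∧
      (d : ℝ) - √(n : ℝ) * m ≤ (√(n : ℝ) - 3) / 2 := by
  obtain ⟨m₀, hm₀⟩ := U11.uniform4 (n := n) (by omega) hε
  refine ⟨m₀, fun m hm h => ?_⟩
  by_contra hcon
  push Not at hcon
  apply h
  obtain ⟨F, hF, hF'⟩ := hm₀ m hm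
  refine ⟨F.map (algebraMap ℚ ℂ), H932R3.map_ne_zero_of hF, fun P hP d => ?_⟩
  rw [MvPolynomial.eval_map] at hP
  have h1 := hF' P hP d (by
    by_cases h3 : 3 ∣ d
    · right
      rcases le_or_gt ((√(n : ℝ) - 3) / 2 - ε) ((d : ℝ) - √(n : ℝ) * m) with h4 | h4
      · right
        exact ⟨h3, (hcon d h3 h4).le⟩
      · left
        exact ⟨h3, h4.le⟩
    · left
      exact ⟨h3, by omega⟩)
  unfold H932R3.ExpDim at h1
  rw [Finset.sum_const, Finset.card_univ, Fintype.card_fin, smul_eq_mul] at h1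
  exact h1

theorem irr_of {n : ℕ} (hn : n = 11 ∨ n = 15) : Irrational √(n : ℝ) := by
  rw [irrational_sqrt_natCast_iff]
  rintro ⟨k, hk⟩
  rcases hn with h | h <;> rw [h] at hk
  · have : k ≤ 3 := by nlinarith
    interval_cases k <;> omega
  · have : k ≤ 3 := by nlinarith
    interval_cases k <;> omega

/-- the equation for the expected dimension one -/
theorem pell {n d m : ℕ} (h : (d + 2).choose 2 = n * (m + 1).choose 2 + 1) :
    (2 * (d : ℝ) + 3) ^ 2 = n * (2 * (m : ℝ) + 1) ^ 2 + 9 - n := by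
  have h1 := two_choose (d + 1)
  have h2 := two_choose m
  have h3 : (d + 1 + 1) * (d + 1) = n * ((m + 1) * m) + 2 := by
    rw [← h1, ← h2]
    have e : d + 1 + 1 = d + 2 := rfl
    rw [e, h]
    ring
  have h4 : ((d : ℝ) + 1 + 1) * (d + 1) = n * ((m + 1) * m) + 2 := by exact_mod_cast h3
  linear_combination 4 * h4

open Classical in
theorem density (n : ℕ) (hn : n = 11 ∨ n = 15) :
    Tendsto (fun M : ℕ =>
      (((Finset.Icc 1 M).filter fun m => ¬ NoCurves n m).card : ℝ) / M) atTop (𝓝 0) := by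
  have hirr := irr_of hn
  have hirr3 : Irrational (√(n : ℝ) / 3) := by
    have := hirr.div_natCast (m := 3) (by norm_num)
    simpa using this
  have d1 : Tendsto (fun M : ℕ =>
      (((Finset.Icc 1 M).filter fun m => ¬ AllDegrees n m).card : ℝ) / M) atTop (𝓝 0) := by
    refine U11.density_zero hirr3 ((√(n : ℝ) - 3) / 6) _ fun ε hε => ?_
    obtain ⟨m₀, hm₀⟩ := exists_degree hn (ε := 3 * ε) (by positivity)
    refine ⟨m₀, fun m hm h => ?_⟩
    obtain ⟨d, ⟨e, rfl⟩, h4, h5⟩ := hm₀ m hm h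
    push_cast at h4 h5
    refine ⟨e, ?_, ?_⟩
    · push_cast
      linarith
    · push_cast
      linarith
  have d2 : Tendsto (fun M : ℕ =>
      (((Finset.Icc 1 M).filter fun m => ∃ d : ℕ,
        (d + 2).choose 2 = n * (m + 1).choose 2 + 1).card : ℝ) / M) atTop (𝓝 0) := by
    refine U11.density_zero hirr ((√(n : ℝ) - 3) / 2) _ fun ε hε => ?_
    obtain ⟨m₀, hm₀⟩ := exists_nat_gt (1 / (2 * ε))
    refine ⟨m₀ + 1, fun m hm h => ?_⟩
    obtain ⟨d, hd⟩ := h
    have hp := pell hd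
    have hn9 : (9 : ℝ) < n ∧ (n : ℝ) ≤ 15 := by
      rcases hn with h | h <;> rw [h] <;> norm_num
    have hsq : √(n : ℝ) ^ 2 = n := Real.sq_sqrt (by positivity)
    have hs3 : 3 < √(n : ℝ) := by
      rw [Real.lt_sqrt (by norm_num)]; linarith [hn9.1]
    have hm1 : (m₀ : ℝ) + 1 ≤ m := by exact_mod_cast hm
    have hm2 : 1 / (2 * ε) < m := by linarith
    have hm3 : 0 < (m : ℝ) := lt_trans (by positivity) hm2
    have hm4 : 1 < m * (2 * ε) := by
      rwa [div_lt_iff₀ (by positivity)] at hm2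
    set u : ℝ := √(n : ℝ) * (2 * m + 1) with hu
    set v : ℝ := 2 * (d : ℝ) + 3 with hv
    have hv0 : 0 < v := by positivity
    have hu0 : 3 * (2 * (m : ℝ) + 1) < u := mul_lt_mul_of_pos_right hs3 (by positivity)
    have huv : (u - v) * (u + v) = n - 9 := by
      have e1 : u ^ 2 = n * (2 * (m : ℝ) + 1) ^ 2 := by rw [hu, mul_pow, hsq]
      linear_combination e1 - hp
    have hpos : 0 < u - v := by
      by_contra hcon
      push Not at hcon
      have h6 : (u - v) * (u + v) ≤ 0 := mul_nonpos_of_nonpos_of_nonneg hcon (by linarith)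
      linarith [hn9.1]
    have hle : (u - v) * (6 * m) ≤ 6 := by
      have h6 : (u - v) * (6 * m) ≤ (u - v) * (u + v) :=
        mul_le_mul_of_nonneg_left (by linarith) hpos.le
      linarith [hn9.2]
    have h7 : u - v ≤ 2 * ε := by
      by_contra hcon
      push Not at hcon
      have h8 : 2 * ε * m < (u - v) * m := mul_lt_mul_of_pos_right hcon hm3
      nlinarith
    refine ⟨d, ?_, ?_⟩
    · push_cast
      have e2 : (d : ℝ) - √(n : ℝ) * m = (√(n : ℝ) - 3) / 2 - (u - v) / 2 := by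
        rw [hu, hv]; ring
      rw [e2]
      linarith
    · push_cast
      have e2 : (d : ℝ) - √(n : ℝ) * m = (√(n : ℝ) - 3) / 2 - (u - v) / 2 := by
        rw [hu, hv]; ring
      rw [e2]
      linarith
  have d3 := d1.add d2
  rw [add_zero] at d3
  refine squeeze_zero (fun M => by positivity) (fun M => ?_) d3
  rw [← add_div]
  refine div_le_div_of_nonneg_right ?_ (by positivity)
  have hsub : ((Finset.Icc 1 M).filter fun m => ¬ NoCurves n m) ⊆
      ((Finset.Icc 1 M).filter fun m => ¬ AllDegrees n m) ∪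
        ((Finset.Icc 1 M).filter fun m => ∃ d : ℕ,
          (d + 2).choose 2 = n * (m + 1).choose 2 + 1) := by
    intro m hm
    rw [Finset.mem_filter] at hm
    rw [Finset.mem_union, Finset.mem_filter, Finset.mem_filter]
    by_contra hcon
    push Not at hcon
    apply hm.2
    obtain ⟨F, hF, hF'⟩ := hcon.1 hm.1
    refine ⟨F, hF, fun P hP t d ht hd => ?_⟩
    apply bot_of
    rw [hF' P hP d]
    rcases ineq_unif ht hd with h1 | ⟨-, h1⟩
    · omega
    · exact absurd h1 (hcon.2 hm.1 d)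
  exact_mod_cast (Finset.card_le_card hsub).trans (Finset.card_union_le _ _)

theorem uniform (n : ℕ) (hn : n = 11 ∨ n = 15) (m : ℕ) (hm : 1 ≤ m) :
    ∃ F : MvPolynomial (Fin n × Fin 2) ℂ, F ≠ 0 ∧
      ∀ P : Fin n → Fin 2 → ℂ, eval (fun ij : Fin n × Fin 2 => P ij.1 ij.2) F ≠ 0 →
      ∀ t d : ℕ, t = 1 ∨ t = 2 → Ineq d t (fun _ : Fin n => m) →
        forms P d (fun _ => m) = ⊥ ∨
        (Module.finrank ℂ ↥(forms P d (fun _ => m)) = 1 ∧
          ((t = 2 ∧ (d + 2).choose 2 = n * (m + 1).choose 2 + 1) ∨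
            (3 ∣ d ∧ (d + 2).choose 2 < n * (m + 1).choose 2 ∧
              3 * (√(n : ℝ) - 3) ≤ (√(n : ℝ) + 3) * (d - √(n : ℝ) * m) ∧
              2 * (d : ℝ) + 3 < √(n : ℝ) * (2 * m + 1))) ∧
          (n = 11 → ∀ f ∈ forms P d (fun _ => m), f ≠ 0 →
            Irreducible f ∧ ∀ i, f ∈ point (P i) ^ m ∧ f ∉ point (P i) ^ (m + 1))) := by
  obtain ⟨F1, hF1, h1⟩ := U11.uniform_dims' (n := n) (by omega) hm
  have p3 : ∃ F : MvPolynomial (Fin n × Fin 2) ℚ, F ≠ 0 ∧
      ∀ (P : Fin n → Fin 2 → ℂ), aeval (fun ij : Fin n × Fin 2 => P ij.1 ij.2) F ≠ 0 →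
      ∀ d : ℕ, n = 11 → 2 * (d : ℝ) + 3 < √(n : ℝ) * (2 * m + 1) →
        ∀ f ∈ forms P d (fun _ => m), f ≠ 0 →
          Irreducible f ∧ ∀ i, f ∈ point (P i) ^ m ∧ f ∉ point (P i) ^ (m + 1) := by
    by_cases h11 : n = 11
    · subst h11
      obtain ⟨F, hF, hF'⟩ := U11.irr_open hm
      refine ⟨F, hF, fun P hP d _ hd f hf hf0 => ?_⟩
      have hX : √(11 : ℝ) * (2 * (d : ℝ) + 3) < 11 + 22 * (m : ℝ) := by
        push_cast at hd
        have hsq := Pool.Agent.TH864.SX.sq11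
        have hs0 : 0 < √(11 : ℝ) := Real.sqrt_pos.2 (by norm_num)
        have h4 : √(11 : ℝ) * (2 * (d : ℝ) + 3) < √(11 : ℝ) * (√(11 : ℝ) * (2 * m + 1)) :=
          mul_lt_mul_of_pos_left hd hs0
        have h5 : √(11 : ℝ) * (√(11 : ℝ) * (2 * m + 1)) = 11 + 22 * (m : ℝ) := by
          linear_combination (2 * (m : ℝ) + 1) * hsq
        linarith
      obtain ⟨k1, k2⟩ := hF' P hP d hX f hf hf0
      exact ⟨k1, fun i => ⟨(TH387.EX.mem_V.1 hf).2 i, k2 i⟩⟩
    · exact ⟨1, one_ne_zero, fun P _ d hd => absurd hd h11⟩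
  obtain ⟨F3, hF3, h3⟩ := p3
  refine ⟨(F1 * F3).map (algebraMap ℚ ℂ), H932R3.map_ne_zero_of (mul_ne_zero hF1 hF3),
    fun P hP t d ht hd => ?_⟩
  rw [MvPolynomial.eval_map] at hP
  have hP' : aeval (fun ij : Fin n × Fin 2 => P ij.1 ij.2) (F1 * F3) ≠ 0 := hP
  rw [map_mul] at hP'
  rcases h1 P (left_ne_zero_of_mul hP') d (by omega) with h5 | ⟨g1, g2, g3, g4, g5⟩
  · have h5' : Module.finrank ℂ ↥(forms P d (fun _ => m)) =
        (d + 2).choose 2 - n * (m + 1).choose 2 := h5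
    rcases ineq_unif ht hd with h6 | ⟨h6, h7⟩
    · left
      apply bot_of
      rw [h5']
      omega
    · right
      refine ⟨by rw [h5', h7]; omega, Or.inl ⟨h6, h7⟩, fun h11 f hf hf0 => ?_⟩
      refine h3 P (right_ne_zero_of_mul hP') d h11 ?_ f hf hf0
      have hp := pell h7
      have hsq : √(n : ℝ) ^ 2 = n := Real.sq_sqrt (by positivity)
      refine lt_of_pow_lt_pow_left₀ 2 (by positivity) ?_
      rw [hp, mul_pow, hsq]
      have : (n : ℝ) = 11 := by rw [h11]; norm_num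
      rw [this]
      linarith
  · right
    exact ⟨g5, Or.inr ⟨g1, g4, g2, g3⟩, fun h11 f hf hf0 =>
      h3 P (right_ne_zero_of_mul hP') d h11 g3 f hf hf0⟩

theorem near (m : ℕ) (w : Fin 11 → ℕ) (hw : ∀ i, w i = m ∨ w i = m + 1) :
    ∃ F : MvPolynomial (Fin 11 × Fin 2) ℂ, F ≠ 0 ∧
      ∀ P : Fin 11 → Fin 2 → ℂ, eval (fun ij : Fin 11 × Fin 2 => P ij.1 ij.2) F ≠ 0 →
      ∀ t d : ℕ, t = 1 ∨ t = 2 → Ineq d t w →
        forms P d w = ⊥ ∨ Module.finrank ℂ ↥(forms P d w) = 1 := by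
  obtain ⟨F2, hF2, h2⟩ := U11.dims (n := 11) (w := w) (G := fun _ => True)
    (fun d _ => U11.near11_one hw d)
  refine ⟨F2.map (algebraMap ℚ ℂ), H932R3.map_ne_zero_of hF2, fun P hP t d ht hd => ?_⟩
  rw [MvPolynomial.eval_map] at hP
  rcases h2 P hP d trivial with h5 | ⟨-, h6⟩
  · have h5' : Module.finrank ℂ ↥(forms P d w) =
        (d + 2).choose 2 - ∑ i, (w i + 1).choose 2 := h5
    have hle : (d + 2).choose 2 ≤ ∑ i, (w i + 1).choose 2 + 1 := by
      unfold Ineq at hd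
      have e : ∑ i, ((w i + 1).choose 2 : ℤ) = ((∑ i, (w i + 1).choose 2 : ℕ) : ℤ) := by
        push_cast
        rfl
      rw [e] at hd
      rcases ht with rfl | rfl
      · have h2 : ((1 + 1).choose 2 : ℤ) = 1 := by norm_num
        rw [h2] at hd
        norm_num at hd
        omega
      · have h2 : ((2 + 1).choose 2 : ℤ) = 3 := by
          norm_num [Nat.choose]
        rw [h2] at hd
        norm_num at hd
        omega
    rcases Nat.eq_zero_or_pos (Module.finrank ℂ ↥(forms P d w)) with h7 | h7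
    · exact Or.inl (bot_of h7)
    · right
      omega
  · exact Or.inr h6

open Classical in
theorem result :
    (∀ n : ℕ, n = 11 ∨ n = 15 → Tendsto (fun M : ℕ =>
      (((Finset.Icc 1 M).filter fun m => ¬ NoCurves n m).card : ℝ) / M) atTop (𝓝 0)) ∧
    (∀ n : ℕ, n = 11 ∨ n = 15 → ∀ m : ℕ, 1 ≤ m →
      ∃ F : MvPolynomial (Fin n × Fin 2) ℂ, F ≠ 0 ∧
        ∀ P : Fin n → Fin 2 → ℂ, eval (fun ij : Fin n × Fin 2 => P ij.1 ij.2) F ≠ 0 →
        ∀ t d : ℕ, t = 1 ∨ t = 2 → Ineq d t (fun _ : Fin n => m) →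
          forms P d (fun _ => m) = ⊥ ∨
          (Module.finrank ℂ ↥(forms P d (fun _ => m)) = 1 ∧
            ((t = 2 ∧ (d + 2).choose 2 = n * (m + 1).choose 2 + 1) ∨
              (3 ∣ d ∧ (d + 2).choose 2 < n * (m + 1).choose 2 ∧
                3 * (√(n : ℝ) - 3) ≤ (√(n : ℝ) + 3) * (d - √(n : ℝ) * m) ∧
                2 * (d : ℝ) + 3 < √(n : ℝ) * (2 * m + 1))) ∧
            (n = 11 → ∀ f ∈ forms P d (fun _ => m), f ≠ 0 →
              Irreducible f ∧ ∀ i, f ∈ point (P i) ^ m ∧ f ∉ point (P i) ^ (m + 1)))) ∧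
    (∀ (m : ℕ) (w : Fin 11 → ℕ), (∀ i, w i = m ∨ w i = m + 1) →
      ∃ F : MvPolynomial (Fin 11 × Fin 2) ℂ, F ≠ 0 ∧
        ∀ P : Fin 11 → Fin 2 → ℂ, eval (fun ij : Fin 11 × Fin 2 => P ij.1 ij.2) F ≠ 0 →
        ∀ t d : ℕ, t = 1 ∨ t = 2 → Ineq d t w →
          forms P d w = ⊥ ∨ Module.finrank ℂ ↥(forms P d w) = 1) :=
  ⟨fun n hn => by convert density n hn, uniform, near⟩

end Pool.Agent.Results.MP_b1ca72_ag.ElevenFifteenPoints
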