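import Mathlib
import Pool.Agent.U605.ST.Packed
import Pool.Agent.TH442.NF.Exc
import Pool.Agent.TH167.SH.Fam
import Pool.Agent.TH167.SH.Conv
import Pool.Agent.TH167.SH.Defs

set_option autoImplicit false

/-!
# Reduced curves with a point of multiplicity one: multiplicities with a packed tail

Let `n ≥ 36` of the numbers `v i` be equal to `M`, `n ≤ 4 (√n - 5) M` (so `M` may be of the order
`√n / 4`), let `tail` be the set of the others which are at least `2`, and suppose that the squares of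
the sizes `v i`, `i` in the tail, fit into a rectangle `T × H` which fits beside the `n` numbers `M`
(`PackedTail`). Let the points be very general and
`(d + 2) (d + 1) / 2 ≤ ∑ w i (w i + 1) / 2`, the condition of the problem for `t = 1`. Then there is no
curve at all of degree `d` with multiplicities at least `w i`

* if `w` has a packed tail, in every degree `d`;
* if `(d; w)` meets all `(-1)`-curves nonnegatively and finitely many reflections in classes
  `H - E i - E j - E k` carry it to a class `(e; u)` such that `u` has a packed tail.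
-/

namespace Pool.Agent.Results.MP_b1ca72_ag.PackedTailEmpty

open MvPolynomial Pool.Agent.TH167 Pool.Agent.TH167.SHDefs

/-- The tail: the points whose multiplicity is at least `2` and different from `M`. -/
def tail {h : ℕ} (M : ℕ) (m : Fin h → ℕ) : Finset (Fin h) :=
  Finset.univ.filter fun i => 2 ≤ m i ∧ m i ≠ M

/-- The room beside `n` points of multiplicity `M`. -/
noncomputable def room (n M : ℕ) : ℝ := (3 * √(n : ℝ) - 5 - (n : ℝ) / (4 * M)) / 4

/-- `n ≥ 36` equal numbers `M`, numbers `0` and `1`, and a packed tail. -/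
def PackedTail {h : ℕ} (v : Fin h → ℕ) : Prop :=
  ∃ n M T H : ℕ, 36 ≤ n ∧ (Finset.univ.filter fun i => v i = M).card = n ∧
    (n : ℝ) ≤ 4 * (√(n : ℝ) - 5) * M ∧
    (∀ i ∈ tail M v, v i ≤ T) ∧ 2 * ∑ i ∈ tail M v, v i ^ 2 + T ^ 2 ≤ T * H ∧
    ((H ≤ 2 * M ∧ (T : ℝ) ≤ room n M) ∨ room n M * H ≤ (2 * room n M - T) * M) ∧
    ∑ i ∈ tail M v, (v i : ℝ) * (v i + 1) ≤ (√(n : ℝ) - 5) * M

/-- The reflection of the class `a = (d; w)`, `d H - ∑ w l E l`, in the class
`H - E (i 0) - E (i 1) - E (i 2)`. -/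
def reflect {s : ℕ} (i : Fin 3 → Fin s) (a : ℤ × (Fin s → ℤ)) : ℤ × (Fin s → ℤ) :=
  (a.1 + (a.1 - a.2 (i 0) - a.2 (i 1) - a.2 (i 2)),
    fun l => a.2 l + if l = i 0 ∨ l = i 1 ∨ l = i 2 then a.1 - a.2 (i 0) - a.2 (i 1) - a.2 (i 2)
      else 0)

/-- Finitely many reflections carry the class `a` to `b`. -/
def Carries {s : ℕ} (a b : ℤ × (Fin s → ℤ)) : Prop :=
  Relation.ReflTransGen
    (fun a b : ℤ × (Fin s → ℤ) => ∃ i : Fin 3 → Fin s, Function.Injective i ∧ b = reflect i a) a b

/-- the expected dimension at points with algebraically independent coordinates -/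
theorem expDim {h : ℕ} {v : Fin h → ℕ} (hv : PackedTail v) {P : Fin h → Fin 2 → ℂ}
    (hP : AlgebraicIndependent ℚ (fun ij : Fin h × Fin 2 => P ij.1 ij.2)) (d : ℕ) :
    Pool.Agent.H932R3.ExpDim ℂ v P d := by
  obtain ⟨n, M, T, H, hn, hcard, hM, hT, hTH, hroom, hsum⟩ := hv
  obtain ⟨F, hF, hF'⟩ := Pool.Agent.U605.ST.expDim_packed v hn hM hcard hT hTH hroom hsum
  exact hF' P (fun h0 => hF (hP.eq_zero_of_aeval_eq_zero F h0)) d

theorem result (h : ℕ) :
    ∃ Z : ℕ → MvPolynomial (Fin h × Fin 2) ℂ, (∀ k, Z k ≠ 0) ∧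
      ∀ P : Fin h → Fin 2 → ℂ,
        (∀ k, MvPolynomial.eval (fun ij : Fin h × Fin 2 => P ij.1 ij.2) (Z k) ≠ 0) →
        ∀ (d : ℕ) (w : Fin h → ℕ), (d + 2).choose 2 ≤ ∑ i, (w i + 1).choose 2 →
          (PackedTail w → ∀ F ∈ sys P d w, F = 0) ∧
          ((∀ (G : MvPolynomial (Fin 3) ℂ) (a : ℕ) (b : Fin h → ℕ), MinusOne P G a b →
            0 ≤ inter d w a b) →
          ∀ (e : ℕ) (u : Fin h → ℕ),
            Carries ((d : ℤ), fun l => (w l : ℤ)) ((e : ℤ), fun l => (u l : ℤ)) → PackedTail u →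
              ∀ F ∈ sys P d w, F = 0) := by
  obtain ⟨Z, hZ, hh⟩ := SH.exists_fam (Fin h × Fin 2)
  refine ⟨Z, hZ, fun P hP0 d w hχ => ?_⟩
  have hP := (hh _).1 hP0
  have hfin : Module.Finite ℂ ↥(sys P d w) := by
    have h0 : Module.Finite ℂ ↥(MvPolynomial.homogeneousSubmodule (Fin 3) ℂ d) :=
      Module.Finite.iff_fg.2 (MvPolynomial.homogeneousSubmodule_fg _ _ d)
    exact Submodule.finiteDimensional_of_le (S₂ := MvPolynomial.homogeneousSubmodule (Fin 3) ℂ d)
      inf_le_left
  have hzero : Module.finrank ℂ ↥(sys P d w) = 0 → ∀ F ∈ sys P d w, F = 0 := by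
    intro h0 F hF
    have h1 := Submodule.finrank_eq_zero.1 h0
    rw [h1] at hF
    exact (Submodule.mem_bot ℂ).1 hF
  refine ⟨fun hw => hzero ?_, fun hnef e u hc hu => hzero ?_⟩
  · have h2 : Module.finrank ℂ ↥(sys P d w) =
        (d + 2).choose 2 - ∑ i, (w i + 1).choose 2 := expDim hw hP d
    omega
  · have hE : Pool.Agent.TH442.NF.ENef P d w := fun G a b hG => by
      have h1 := hnef G a b (SH.minusOne_iff.2 hG)
      rwa [SH.inter_eq] at h1
    obtain ⟨P1, d1, w1, hP1, -, h1, hchi, hd⟩ := Pool.Agent.TH442.NF.echain hP hE hc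
    have he : d1 = e := by
      have h9 : (e : ℤ) = d1 := congrArg Prod.fst h1
      exact_mod_cast h9.symm
    have hu' : w1 = u := by
      funext l
      have h9 : (u l : ℤ) = w1 l := congrFun (congrArg Prod.snd h1) l
      exact_mod_cast h9.symm
    subst he hu'
    have h2 : Module.finrank ℂ ↥(Pool.Agent.H248R5.forms w1 P1 d1) =
        (d1 + 2).choose 2 - ∑ i, (w1 i + 1).choose 2 := expDim hu hP1 d1
    rw [← Pool.Agent.W609.CR.vs_eq_forms, hd] at h2
    rw [SH.sys_eq, h2]
    unfold SH.chi at hchi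
    have h9 : ∀ v : Fin h → ℕ,
        ∑ i, ((v i + 1).choose 2 : ℤ) = ((∑ i, (v i + 1).choose 2 : ℕ) : ℤ) := by
      intro v
      push_cast
      rfl
    rw [h9, h9] at hchi
    omega

end Pool.Agent.Results.MP_b1ca72_ag.PackedTailEmpty
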